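import Pool.Agent.helper19.FR.Spec

/-!
# Project FR, row `fr:ORT`: near orthogonality of the kernels of different ratios
-/

set_option autoImplicit false

namespace Pool.Agent.FR

open Finset Real Pool.Agent.AT Pool.Agent.OM Pool.Agent.helper85.FC

/-- shift of a sum over an interval by a natural number -/
lemma ORT_nat (h : ℤ → ℝ) (hh : ∀ y, |h y| ≤ 1) (X : ℕ) (t : ℤ) (u : ℕ) :
    |(∑ x : Fin X, h (((x : ℕ) : ℤ) + t + (u : ℤ))) - ∑ x : Fin X, h (((x : ℕ) : ℤ) + t)| ≤ 2 * (u : ℝ) := by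
  induction u with
  | zero => simp
  | succ u ih =>
    have e : (∑ x : Fin X, h (((x : ℕ) : ℤ) + t + ((u + 1 : ℕ) : ℤ))) -
        ∑ x : Fin X, h (((x : ℕ) : ℤ) + t + (u : ℤ)) = h ((X : ℤ) + t + u) - h (t + u) := by
      rw [Fin.sum_univ_eq_sum_range (fun x : ℕ => h ((x : ℤ) + t + ((u + 1 : ℕ) : ℤ))) X,
        Fin.sum_univ_eq_sum_range (fun x : ℕ => h ((x : ℤ) + t + (u : ℤ))) X]
      have h1 := Finset.sum_range_succ (fun x : ℕ => h ((x : ℤ) + t + (u : ℤ))) X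
      have h2 := Finset.sum_range_succ' (fun x : ℕ => h ((x : ℤ) + t + (u : ℤ))) X
      have h3 : ∑ x ∈ range X, h (((x + 1 : ℕ) : ℤ) + t + (u : ℤ)) =
          ∑ x ∈ range X, h ((x : ℤ) + t + ((u + 1 : ℕ) : ℤ)) := by
        refine Finset.sum_congr rfl fun x _ => ?_
        congr 1
        push_cast
        ring
      simp only [Nat.cast_zero, zero_add] at h2
      rw [h3] at h2
      linarith
    have h1 := hh ((X : ℤ) + t + u)
    have h2 := hh (t + u)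
    rw [abs_le] at *
    push_cast
    constructor <;> push_cast at * <;> linarith [h1.1, h1.2, h2.1, h2.2, ih.1, ih.2]

/-- shift of a sum over an interval by an integer -/
lemma ORT_int (h : ℤ → ℝ) (hh : ∀ y, |h y| ≤ 1) (X : ℕ) (u : ℤ) :
    |(∑ x : Fin X, h (((x : ℕ) : ℤ) + u)) - ∑ x : Fin X, h ((x : ℕ) : ℤ)| ≤ 2 * |(u : ℝ)| := by
  obtain ⟨n, rfl | rfl⟩ := Int.eq_nat_or_neg u
  · have := ORT_nat h hh X 0 n
    simpa using this
  · have := ORT_nat h hh X (-(n : ℤ)) n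
    rw [abs_sub_comm]
    simpa using this

/-- shift of a sum over a square -/
lemma ORT_sq (G : ℤ → ℤ → ℝ) (hG : ∀ x y, |G x y| ≤ 1) (X : ℕ) (u v : ℤ) :
    |(∑ x : Fin X, ∑ y : Fin X, G (((x : ℕ) : ℤ) + u) (((y : ℕ) : ℤ) + v)) -
      ∑ x : Fin X, ∑ y : Fin X, G ((x : ℕ) : ℤ) ((y : ℕ) : ℤ)| ≤ 2 * X * (|(u : ℝ)| + |(v : ℝ)|) := by
  have h1 : |(∑ y : Fin X, ∑ x : Fin X, G (((x : ℕ) : ℤ) + u) (((y : ℕ) : ℤ) + v)) -
      ∑ y : Fin X, ∑ x : Fin X, G ((x : ℕ) : ℤ) (((y : ℕ) : ℤ) + v)| ≤ X * (2 * |(u : ℝ)|) := by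
    rw [← Finset.sum_sub_distrib]
    refine (Finset.abs_sum_le_sum_abs _ _).trans ?_
    refine (Finset.sum_le_card_nsmul _ _ (2 * |(u : ℝ)|) fun y _ => ?_).trans ?_
    · exact ORT_int (fun x => G x (((y : ℕ) : ℤ) + v)) (fun x => hG _ _) X u
    · simp
  have h2 : |(∑ x : Fin X, ∑ y : Fin X, G ((x : ℕ) : ℤ) (((y : ℕ) : ℤ) + v)) -
      ∑ x : Fin X, ∑ y : Fin X, G ((x : ℕ) : ℤ) ((y : ℕ) : ℤ)| ≤ X * (2 * |(v : ℝ)|) := by
    rw [← Finset.sum_sub_distrib]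
    refine (Finset.abs_sum_le_sum_abs _ _).trans ?_
    refine (Finset.sum_le_card_nsmul _ _ (2 * |(v : ℝ)|) fun x _ => ?_).trans ?_
    · exact ORT_int (fun y => G ((x : ℕ) : ℤ) y) (fun y => hG _ _) X v
    · simp
  rw [Finset.sum_comm] at h1
  rw [Finset.sum_comm (f := fun (y : Fin X) (x : Fin X) => G ((x : ℕ) : ℤ) (((y : ℕ) : ℤ) + v))] at h1
  rw [abs_le] at *
  constructor <;> linarith [h1.1, h1.2, h2.1, h2.2]

/-- **ORT** -/
theorem ORT : ORT_stmt := by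
  intro a b a' b' m D l X f g ha hb ha' hb' hl hX hD hd hdvd hf hg
  obtain ⟨e, he⟩ := hdvd
  have hX0 : (0 : ℝ) < X := by exact_mod_cast hX
  have hl0 : (0 : ℝ) < l := by exact_mod_cast hl
  set G : ℤ → ℤ → ℝ := fun x y => f ((a : ℤ) * x - (b : ℤ) * y) * g ((a' : ℤ) * x - (b' : ℤ) * y) with hGdef
  have hG : ∀ x y, |G x y| ≤ 1 := fun x y => by
    rw [hGdef]
    simp only [abs_mul]
    exact mul_le_one₀ (hf _) (abs_nonneg _) (hg _)
  -- `|e| ≤ D`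
  have heD : |e| ≤ (D : ℤ) := by
    have h1 : |(D : ℤ)| = |(a : ℤ) * b' - a' * b| * |e| := by rw [he, abs_mul]
    have h2 : (1 : ℤ) ≤ |(a : ℤ) * b' - a' * b| := Int.one_le_abs hd
    have h3 : |(D : ℤ)| = D := abs_of_nonneg (by positivity)
    rw [h3] at h1
    rw [h1]
    nlinarith [abs_nonneg e]
  have heR : |(e : ℝ)| ≤ D := by exact_mod_cast heD
  -- the sums
  set S : ℝ := ∑ x : Fin X, ∑ y : Fin X, G ((x : ℕ) : ℤ) ((y : ℕ) : ℤ) with hS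
  set T : Fin l → ℝ := fun k => ∑ x : Fin X, ∑ y : Fin X,
    f ((a : ℤ) * ((x : ℕ) : ℤ) - (b : ℤ) * ((y : ℕ) : ℤ) + D * ((k : ℕ) : ℤ)) *
      g ((a' : ℤ) * ((x : ℕ) : ℤ) - (b' : ℤ) * ((y : ℕ) : ℤ)) with hT
  have hTS : ∀ k : Fin l, |T k - S| ≤ 4 * l * D * m * X := by
    intro k
    have h1 := ORT_sq G hG X (((k : ℕ) : ℤ) * e * b') (((k : ℕ) : ℤ) * e * a')
    have h2 : (∑ x : Fin X, ∑ y : Fin X, G (((x : ℕ) : ℤ) + ((k : ℕ) : ℤ) * e * b')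
        (((y : ℕ) : ℤ) + ((k : ℕ) : ℤ) * e * a')) = T k := by
      rw [hT]
      refine Finset.sum_congr rfl fun x _ => Finset.sum_congr rfl fun y _ => ?_
      rw [hGdef]
      have e1 : (a : ℤ) * (((x : ℕ) : ℤ) + ((k : ℕ) : ℤ) * e * b') - (b : ℤ) * (((y : ℕ) : ℤ) + ((k : ℕ) : ℤ) * e * a') =
          (a : ℤ) * ((x : ℕ) : ℤ) - (b : ℤ) * ((y : ℕ) : ℤ) + D * ((k : ℕ) : ℤ) := by
        rw [he]; ring
      have e2 : (a' : ℤ) * (((x : ℕ) : ℤ) + ((k : ℕ) : ℤ) * e * b') - (b' : ℤ) * (((y : ℕ) : ℤ) + ((k : ℕ) : ℤ) * e * a') =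
          (a' : ℤ) * ((x : ℕ) : ℤ) - (b' : ℤ) * ((y : ℕ) : ℤ) := by ring
      simp only [e1, e2]
    rw [h2] at h1
    refine h1.trans ?_
    have hk : ((k : ℕ) : ℝ) ≤ l := by exact_mod_cast k.2.le
    have key : ∀ c : ℕ, c ≤ m → |((((k : ℕ) : ℤ) * e * (c : ℤ) : ℤ) : ℝ)| ≤ l * D * m := by
      intro c hc
      push_cast
      rw [abs_mul, abs_mul, abs_of_nonneg (Nat.cast_nonneg (k : ℕ) : (0 : ℝ) ≤ ((k : ℕ) : ℝ)),
        abs_of_nonneg (Nat.cast_nonneg c : (0 : ℝ) ≤ (c : ℝ))]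
      have hcm : (c : ℝ) ≤ m := by exact_mod_cast hc
      gcongr
    have k1 := key b' hb'
    have k2 := key a' ha'
    calc 2 * (X : ℝ) * (|((((k : ℕ) : ℤ) * e * (b' : ℤ) : ℤ) : ℝ)| + |((((k : ℕ) : ℤ) * e * (a' : ℤ) : ℤ) : ℝ)|)
        ≤ 2 * (X : ℝ) * (l * D * m + l * D * m) := by gcongr
      _ = 4 * l * D * m * X := by ring
  -- the mean
  have hmain : mean (fun z : Fin X × Fin X =>
    (f ((a : ℤ) * ((z.1 : ℕ) : ℤ) - (b : ℤ) * ((z.2 : ℕ) : ℤ)) -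
      mean fun k : Fin l => f ((a : ℤ) * ((z.1 : ℕ) : ℤ) - (b : ℤ) * ((z.2 : ℕ) : ℤ) + D * ((k : ℕ) : ℤ))) *
    g ((a' : ℤ) * ((z.1 : ℕ) : ℤ) - (b' : ℤ) * ((z.2 : ℕ) : ℤ))) = ((∑ k : Fin l, (S - T k)) / l) / (X * X) := by
    have hc : ((Fintype.card (Fin X × Fin X) : ℕ) : ℝ) = X * X := by simp
    unfold mean
    rw [hc, Fintype.sum_prod_type]
    congr 1
    have hcl : ((Fintype.card (Fin l) : ℕ) : ℝ) = l := by simp
    rw [hcl]
    have hA : (∑ k : Fin l, (S - T k)) / l = S - (∑ k : Fin l, T k) / l := by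
      rw [Finset.sum_sub_distrib]
      simp only [Finset.sum_const, Finset.card_univ, Fintype.card_fin, nsmul_eq_mul]
      field_simp
    have hB : (∑ k : Fin l, T k) / l = ∑ x : Fin X, ∑ y : Fin X,
        (∑ k : Fin l, f ((a : ℤ) * ((x : ℕ) : ℤ) - (b : ℤ) * ((y : ℕ) : ℤ) + D * ((k : ℕ) : ℤ))) / l *
          g ((a' : ℤ) * ((x : ℕ) : ℤ) - (b' : ℤ) * ((y : ℕ) : ℤ)) := by
      rw [hT, Finset.sum_comm, Finset.sum_div]
      refine Finset.sum_congr rfl fun x _ => ?_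
      rw [Finset.sum_comm, Finset.sum_div]
      refine Finset.sum_congr rfl fun y _ => ?_
      rw [← Finset.sum_mul]
      ring
    rw [hA, hB, hS, ← Finset.sum_sub_distrib]
    refine Finset.sum_congr rfl fun x _ => ?_
    rw [← Finset.sum_sub_distrib]
    refine Finset.sum_congr rfl fun y _ => ?_
    rw [hGdef]
    ring
  rw [hmain, abs_div, abs_div, abs_of_pos (mul_pos hX0 hX0), abs_of_pos hl0]
  have h1 : |∑ k : Fin l, (S - T k)| ≤ l * (4 * l * D * m * X) := by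
    refine (Finset.abs_sum_le_sum_abs _ _).trans ?_
    refine (Finset.sum_le_card_nsmul _ _ (4 * l * D * m * X : ℝ) fun k _ => ?_).trans ?_
    · rw [abs_sub_comm]; exact hTS k
    · simp
  rw [div_div, div_le_div_iff₀ (by positivity) hX0]
  calc |∑ k : Fin l, (S - T k)| * X ≤ (l * (4 * l * D * m * X)) * X := by gcongr
    _ = 4 * l * D * m * (l * (X * X)) := by ring

end Pool.Agent.FR
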